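import Mathlib
import Pool.Agent.H320.Def.Main

set_option autoImplicit false

namespace Pool.Agent.Results.MP_1c7b0d_gt.AtLeastThirteen

/-- a convex polytope in three-space: the convex hull of finitely many points, with an interior
point -/
def IsPolyhedron (P : Set (EuclideanSpace ℝ (Fin 3))) : Prop :=
  (interior P).Nonempty ∧
    ∃ V : Finset (EuclideanSpace ℝ (Fin 3)), P = convexHull ℝ (V : Set (EuclideanSpace ℝ (Fin 3)))

/-- `F` is a face of `P` of dimension `d` -/
def IsFace (P : Set (EuclideanSpace ℝ (Fin 3))) (d : ℕ) (F : Set (EuclideanSpace ℝ (Fin 3))) :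
    Prop :=
  F.Nonempty ∧ IsExposed ℝ P F ∧ Module.finrank ℝ (vectorSpan ℝ F) = d

/-- the number of facets (two-dimensional faces) -/
noncomputable def numFaces (P : Set (EuclideanSpace ℝ (Fin 3))) : ℕ :=
  {F : Set (EuclideanSpace ℝ (Fin 3)) | IsFace P 2 F}.ncard

/-- every vertex lies on exactly three edges -/
def IsSimple (P : Set (EuclideanSpace ℝ (Fin 3))) : Prop :=
  ∀ v : EuclideanSpace ℝ (Fin 3), IsFace P 0 {v} →
    {E : Set (EuclideanSpace ℝ (Fin 3)) | IsFace P 1 E ∧ v ∈ E}.ncard = 3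

/-- the number of sides (edges) of the facet `F` of `P` -/
noncomputable def sides (P F : Set (EuclideanSpace ℝ (Fin 3))) : ℕ :=
  {E : Set (EuclideanSpace ℝ (Fin 3)) | IsFace P 1 E ∧ E ⊆ F}.ncard

/-- surface area: the two-dimensional Hausdorff measure of the boundary -/
noncomputable def surface (P : Set (EuclideanSpace ℝ (Fin 3))) : ℝ :=
  (MeasureTheory.Measure.hausdorffMeasure 2 (frontier P)).toReal

/-- the isoperimetric quotient `S³/V²`; its reciprocal is a constant times the square of the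
isoperimetric ratio `I` -/
noncomputable def quot (P : Set (EuclideanSpace ℝ (Fin 3))) : ℝ :=
  surface P ^ 3 / (MeasureTheory.volume P).toReal ^ 2

/-- `P` is isoperimetrically optimal among the polytopes with `n` facets: it minimises `S³/V²`,
that is, it maximises the isoperimetric ratio -/
def IsOptimal (P : Set (EuclideanSpace ℝ (Fin 3))) (n : ℕ) : Prop :=
  IsPolyhedron P ∧ numFaces P = n ∧
    ∀ Q : Set (EuclideanSpace ℝ (Fin 3)), IsPolyhedron Q → numFaces Q = n → quot P ≤ quot Q

/-- For all large `n`, an optimal polytope with `n` facets in `E³` that is simple has at least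
thirteen facets that are not hexagons. -/
theorem result : ∃ N : ℕ, ∀ n : ℕ, N ≤ n → ∀ P : Set (EuclideanSpace ℝ (Fin 3)),
    IsOptimal P n → IsSimple P →
      13 ≤ {F : Set (EuclideanSpace ℝ (Fin 3)) | IsFace P 2 F ∧ sides P F ≠ 6}.ncard := by
  obtain ⟨N, hN⟩ := Pool.Agent.H320.Def.Main.main12
  refine ⟨N, fun n hn P hP hS => ?_⟩
  by_contra hcon
  obtain ⟨Q, hQ, hQn, hlt⟩ := hN n hn P hP.1 ⟨hP.2.1, hS, Nat.lt_succ_iff.1 (not_le.1 hcon)⟩
  exact absurd (hP.2.2 Q hQ hQn) (not_le.2 hlt)

end Pool.Agent.Results.MP_1c7b0d_gt.AtLeastThirteen
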